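import Pool.Agent.Helper94.US.Stm

set_option autoImplicit false

/-!
# A universal Skolem set of density one: one block of primes catches almost all `n`
-/

namespace Pool.Agent.Helper82.US

open Polynomial Finset Pool.Agent.H692R2.USS Pool.Agent.TH997.US Pool.Agent.Helper94.US
open scoped Classical

theorem t_A4b : A4b := by
  intro M P E w μ V hE hw hμ h1 h2
  set F : ℕ → ℝ := fun n => ∑ p ∈ P, if n ∈ E p then w p else 0 with hF
  have hcard : ∀ s : Finset ℕ, s ⊆ range M →
      ((s.card : ℝ)) = ∑ n ∈ range M, if n ∈ s then (1 : ℝ) else 0 := by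
    intro s hs
    rw [Finset.sum_ite_mem, Finset.inter_eq_right.2 hs]
    simp
  have hS1 : ∑ n ∈ range M, F n = M * μ := by
    rw [← h1, hF]
    simp only
    rw [Finset.sum_comm]
    refine Finset.sum_congr rfl fun p hp => ?_
    rw [hcard _ (hE p hp), Finset.mul_sum]
    refine Finset.sum_congr rfl fun n _ => ?_
    split_ifs <;> simp
  have hS2 : ∑ n ∈ range M, F n ^ 2 ≤ M * (μ ^ 2 + V) := by
    refine le_trans (le_of_eq ?_) h2
    have h3 : ∀ n, F n ^ 2 =
        ∑ p ∈ P, ∑ q ∈ P, w p * w q * (if n ∈ E p ∩ E q then (1 : ℝ) else 0) := by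
      intro n
      simp only [hF]
      rw [pow_two, Finset.sum_mul_sum]
      refine Finset.sum_congr rfl fun p _ => Finset.sum_congr rfl fun q _ => ?_
      simp only [Finset.mem_inter]
      by_cases hp : n ∈ E p <;> by_cases hq : n ∈ E q <;> simp [hp, hq]
    simp only [h3]
    rw [Finset.sum_comm]
    refine Finset.sum_congr rfl fun p hp => ?_
    rw [Finset.sum_comm]
    refine Finset.sum_congr rfl fun q hq => ?_
    rw [hcard _ (Finset.inter_subset_left.trans (hE p hp)), Finset.mul_sum]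
  have hvar : ∑ n ∈ range M, (F n - μ) ^ 2 ≤ M * V := by
    have h4 : ∑ n ∈ range M, (F n - μ) ^ 2 =
        ∑ n ∈ range M, F n ^ 2 - 2 * μ * ∑ n ∈ range M, F n + M * μ ^ 2 := by
      have h5 : (M : ℝ) * μ ^ 2 = ∑ n ∈ range M, μ ^ 2 := by simp
      rw [h5, Finset.mul_sum, ← Finset.sum_sub_distrib, ← Finset.sum_add_distrib]
      exact Finset.sum_congr rfl fun n _ => by ring
    rw [h4, hS1]
    nlinarith
  rw [le_div_iff₀ (by positivity)]
  refine le_trans ?_ hvar
  have h6 : (((range M).filter (fun n => ∀ p ∈ P, n ∉ E p)).card : ℝ) * μ ^ 2 =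
      ∑ n ∈ (range M).filter (fun n => ∀ p ∈ P, n ∉ E p), (F n - μ) ^ 2 := by
    rw [← nsmul_eq_mul, ← Finset.sum_const]
    refine Finset.sum_congr rfl fun n hn => ?_
    have h7 : F n = 0 :=
      Finset.sum_eq_zero fun p hp => if_neg ((Finset.mem_filter.1 hn).2 p hp)
    rw [h7]
    ring
  rw [h6]
  exact Finset.sum_le_sum_of_subset_of_nonneg (Finset.filter_subset _ _)
    fun _ _ _ => sq_nonneg _

theorem count_mod (a c lo hi : ℕ) (hhi : hi ≤ a) :
    ((range (a * c)).filter (fun n => lo ≤ n % a ∧ n % a < hi)).card = c * (hi - lo) := by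
  rw [← Nat.count_eq_card_filter_range]
  induction c with
  | zero => simp
  | succ c ih =>
    rw [Nat.mul_succ, Nat.count_add, ih]
    have h1 : Nat.count (fun k => lo ≤ (a * c + k) % a ∧ (a * c + k) % a < hi) a = hi - lo := by
      simp only [Nat.mul_add_mod]
      rw [Nat.count_eq_card_filter_range]
      have h2 : (range a).filter (fun k => lo ≤ k % a ∧ k % a < hi) = Ico lo hi := by
        ext k
        simp only [mem_filter, mem_range, mem_Ico]
        constructor
        · rintro ⟨h1, h2, h3⟩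
          rw [Nat.mod_eq_of_lt h1] at h2 h3
          exact ⟨h2, h3⟩
        · rintro ⟨h1, h2⟩
          have h3 : k < a := by omega
          rw [Nat.mod_eq_of_lt h3]
          exact ⟨h3, h1, h2⟩
      rw [h2, Nat.card_Ico]
    rw [h1]
    ring

/-- choice of `L` -/
theorem choose_L (c C C'' : ℝ) (A : ℕ) (hc : 0 < c) (hC : 0 < C) (ε : ℝ) (hε : 0 < ε) :
    ∃ L : ℕ, 1 ≤ L ∧ ∀ μ : ℝ, c * Real.log L - C'' ≤ μ →
      0 < μ ∧ μ + 8 * A * C * (1 + Real.log ((L : ℝ) + 1)) ≤ ε * μ ^ 2 := by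
  set K : ℝ := (2 * c + 96 * A * C) / c ^ 2 with hK
  set l0 : ℝ := max 1 (max (2 * C'' / c) (K / ε)) with hl0
  set L : ℕ := ⌈Real.exp l0⌉₊ with hL
  have hLe : Real.exp l0 ≤ L := Nat.le_ceil _
  have hLpos : (0 : ℝ) < L := lt_of_lt_of_le (Real.exp_pos _) hLe
  have hl : l0 ≤ Real.log L := (Real.le_log_iff_exp_le hLpos).2 hLe
  have hL1 : 1 ≤ L := by exact_mod_cast hLpos
  set l : ℝ := Real.log L with hldef
  have e1 : 1 ≤ l := le_trans (le_max_left _ _) hl
  have e2 : 2 * C'' / c ≤ l := le_trans (le_trans (le_max_left _ _) (le_max_right _ _)) hl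
  have e3 : K / ε ≤ l := le_trans (le_trans (le_max_right _ _) (le_max_right _ _)) hl
  have e2' : 2 * C'' ≤ l * c := (div_le_iff₀ hc).1 e2
  have e3' : K ≤ l * ε := (div_le_iff₀ hε).1 e3
  have e4 : 2 * c + 96 * A * C ≤ l * ε * c ^ 2 := by
    rw [hK, div_le_iff₀ (by positivity)] at e3'
    exact e3'
  have e5 : Real.log ((L : ℝ) + 1) ≤ l + 1 := by
    have h1 : ((L : ℝ) + 1) ≤ L * Real.exp 1 := by
      have h2 : (2 : ℝ) ≤ Real.exp 1 := by
        have := Real.add_one_le_exp (1 : ℝ)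
        linarith
      have h3 : (1 : ℝ) ≤ L := by exact_mod_cast hL1
      nlinarith
    have h4 := Real.log_le_log (by positivity) h1
    rw [Real.log_mul hLpos.ne' (Real.exp_pos 1).ne', Real.log_exp] at h4
    exact h4
  refine ⟨L, hL1, fun μ hμ => ?_⟩
  have m1 : c * l / 2 ≤ μ := by linarith
  have hcl : 0 < c * l / 2 := by positivity
  have hμ0 : 0 < μ := lt_of_lt_of_le hcl m1
  refine ⟨hμ0, ?_⟩
  have hA0 : (0 : ℝ) ≤ A := Nat.cast_nonneg A
  have hAC : (0 : ℝ) ≤ A * C := by positivity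
  have t1 : 8 * A * C * (1 + Real.log ((L : ℝ) + 1)) ≤ 24 * (A * C) * l := by
    have : 1 + Real.log ((L : ℝ) + 1) ≤ 3 * l := by linarith
    nlinarith
  have s1 : (c ^ 2 * l) * μ ≤ 2 * c * μ ^ 2 := by
    have : c * l ≤ 2 * μ := by linarith
    have h := mul_le_mul_of_nonneg_left this (show 0 ≤ c * μ by positivity)
    nlinarith
  have s2 : (c * l) ^ 2 ≤ (2 * μ) ^ 2 := by
    have : c * l ≤ 2 * μ := by linarith
    exact pow_le_pow_left₀ (by positivity) this 2
  have s3 : 24 * (A * C) * (c * l) ^ 2 ≤ 96 * A * C * μ ^ 2 := by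
    have := mul_le_mul_of_nonneg_left s2 (show 0 ≤ 24 * (A * C) by positivity)
    nlinarith
  have hpos : 0 < c ^ 2 * l := by positivity
  have fin : (c ^ 2 * l) * (μ + 24 * (A * C) * l) ≤ (c ^ 2 * l) * (ε * μ ^ 2) := by
    have g1 : (c ^ 2 * l) * (μ + 24 * (A * C) * l) ≤ (2 * c + 96 * A * C) * μ ^ 2 := by
      nlinarith
    have g2 : (2 * c + 96 * A * C) * μ ^ 2 ≤ (l * ε * c ^ 2) * μ ^ 2 :=
      mul_le_mul_of_nonneg_right e4 (sq_nonneg _)
    nlinarith
  have := le_of_mul_le_mul_left fin hpos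
  linarith


theorem t_A4 : A4a → A4b → Pool.Agent.TH997.US.A4 := by
  intro hA hB k hk hMass hGcd β x ε hε
  obtain ⟨c, C', hc, hMass⟩ := hMass
  obtain ⟨C, hC, hGcd⟩ := hGcd
  generalize hAdef : 4 * k * (k + 1) = A
  have hA1 : 1 ≤ A := by
    rw [← hAdef]
    have : 0 < 4 * k * (k + 1) := by positivity
    omega
  have hAR : (0 : ℝ) < A := by exact_mod_cast hA1
  set x' : ℕ := max x (2 ^ (4 * A * (β + 1))) with hx'
  obtain ⟨L, hL1, hL⟩ := choose_L c C (C' + x') A hc hC ε hε
  refine ⟨L, fun M hM hdiv => ?_⟩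
  have hMR : (0 : ℝ) < M := by exact_mod_cast hM
  set P : Finset ℕ := ((range (2 ^ L)).filter (fun p => p.Prime ∧ SplitAll k p)).filter
    (fun p => x' ≤ p) with hP
  set N : ℕ → ℕ := fun p => Nat.log 2 p / A - β with hN
  set E : ℕ → Finset ℕ := fun p =>
    (range M).filter (fun n => β ≤ n % (p - 1) ∧ n % (p - 1) < Nat.log 2 p / A) with hE
  set w : ℕ → ℝ := fun p => 1 / (N p : ℝ) with hw
  set μ : ℝ := ∑ p ∈ P, 1 / ((p : ℝ) - 1) with hμ
  set V : ℝ := μ + 8 * A * C * (1 + Real.log ((L : ℝ) + 1)) with hV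
  -- members of `P`
  have memP : ∀ p ∈ P, p < 2 ^ L ∧ p.Prime ∧ SplitAll k p ∧ x ≤ p ∧
      4 * A * (β + 1) ≤ Nat.log 2 p := by
    intro p hp
    rw [hP, mem_filter, mem_filter, mem_range] at hp
    obtain ⟨⟨h1, h2, h3⟩, h4⟩ := hp
    refine ⟨h1, h2, h3, le_trans (le_max_left _ _) h4, ?_⟩
    exact Nat.le_log_of_pow_le (by norm_num) (le_trans (le_max_right _ _) h4)
  have hNlow : ∀ p ∈ P, 1 ≤ N p ∧ Nat.log 2 p + 1 ≤ 4 * A * N p := by
    intro p hp
    obtain ⟨-, -, -, -, h5⟩ := memP p hp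
    have g1 : 4 * (β + 1) ≤ Nat.log 2 p / A := by
      rw [Nat.le_div_iff_mul_le hA1]
      calc 4 * (β + 1) * A = 4 * A * (β + 1) := by ring
        _ ≤ _ := h5
    have g2 : Nat.log 2 p < A * (Nat.log 2 p / A + 1) := Nat.lt_mul_div_succ _ hA1
    have g3 : Nat.log 2 p / A + 1 ≤ 4 * N p := by
      simp only [hN]
      omega
    refine ⟨by simp only [hN]; omega, ?_⟩
    calc Nat.log 2 p + 1 ≤ A * (Nat.log 2 p / A + 1) := g2
      _ ≤ A * (4 * N p) := Nat.mul_le_mul_left _ g3
      _ = 4 * A * N p := by ring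
  have hNR : ∀ p ∈ P, (1 : ℝ) ≤ N p := fun p hp => by exact_mod_cast (hNlow p hp).1
  have p2 : ∀ p ∈ P, 2 ≤ p := fun p hp => (memP p hp).2.1.two_le
  have pR : ∀ p ∈ P, (1 : ℝ) ≤ (p : ℝ) - 1 := fun p hp => by
    have : (2 : ℝ) ≤ p := by exact_mod_cast p2 p hp
    linarith
  have hcast : ∀ p ∈ P, ((p - 1 : ℕ) : ℝ) = (p : ℝ) - 1 := fun p hp => by
    rw [Nat.cast_sub (by have := p2 p hp; omega)]
    simp
  have hdvd : ∀ p ∈ P, (p - 1) ∣ M := fun p hp => hdiv p (memP p hp).2.1 (memP p hp).1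
  have hhi : ∀ p ∈ P, Nat.log 2 p / A ≤ p - 1 := by
    intro p hp
    have h1 : Nat.log 2 p / A ≤ Nat.log 2 p := Nat.div_le_self _ _
    have h2 : Nat.log 2 p < p := Nat.log_lt_self 2 (by have := p2 p hp; omega)
    omega
  -- cardinality of `E p`
  have hEcard : ∀ p ∈ P, ((E p).card : ℝ) = M / ((p : ℝ) - 1) * N p := by
    intro p hp
    obtain ⟨c', hc'⟩ := hdvd p hp
    have h1 : (E p).card = c' * N p := by
      simp only [hE, hN]
      rw [hc']
      exact count_mod (p - 1) c' β _ (hhi p hp)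
    have h2 : (M : ℝ) = ((p : ℝ) - 1) * c' := by
      rw [← hcast p hp]
      exact_mod_cast hc'
    rw [h1, h2]
    have h3 := pR p hp
    push_cast
    field_simp
  have hw0 : ∀ p ∈ P, 0 ≤ w p := fun p hp => by simp only [hw]; positivity
  have hfirst : ∑ p ∈ P, w p * (E p).card = M * μ := by
    rw [hμ, Finset.mul_sum]
    refine Finset.sum_congr rfl fun p hp => ?_
    rw [hEcard p hp]
    have h1 := hNR p hp
    have h2 := pR p hp
    simp only [hw]
    field_simp
  -- lower bound for `μ`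
  have hμlow : c * Real.log L - (C' + x') ≤ μ := by
    have h1 := hMass L hL1
    have h2 : ∑ p ∈ (range (2 ^ L)).filter (fun p => p.Prime ∧ SplitAll k p), (1 : ℝ) / p ≤
        μ + x' := by
      rw [← Finset.sum_filter_add_sum_filter_not _ (fun p => x' ≤ p)]
      refine add_le_add ?_ ?_
      · rw [hμ]
        refine Finset.sum_le_sum fun p hp => ?_
        have h3 := pR p hp
        exact one_div_le_one_div_of_le (by linarith) (by linarith)
      · calc _ ≤ ∑ p ∈ range x', (1 : ℝ) := by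
              refine (Finset.sum_le_sum fun p hp => ?_).trans
                (Finset.sum_le_sum_of_subset_of_nonneg ?_ fun _ _ _ => zero_le_one)
              · rw [mem_filter, mem_filter] at hp
                have h3 : (1 : ℝ) ≤ p := by exact_mod_cast hp.1.2.1.one_le
                rw [div_le_one (by linarith)]
                exact h3
              · intro p hp
                rw [mem_filter] at hp
                rw [mem_range]
                exact not_le.1 hp.2
          _ = x' := by simp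
    linarith
  obtain ⟨hμ0, hVle⟩ := hL μ hμlow
  -- the second moment
  have hsecond : ∑ p ∈ P, ∑ q ∈ P, w p * w q * ((E p ∩ E q).card : ℝ) ≤ M * (μ ^ 2 + V) := by
    set g : ℕ → ℕ → ℝ := fun p q => ((Nat.gcd (p - 1) (q - 1) : ℕ) : ℝ) /
      (((p : ℝ) - 1) * ((q : ℝ) - 1) * ((Nat.log 2 q : ℝ) + 1)) with hg
    have pair : ∀ p ∈ P, ∀ q ∈ P, w p * w q * ((E p ∩ E q).card : ℝ) ≤
        M * (1 / ((p : ℝ) - 1) * (1 / ((q : ℝ) - 1)) + 4 * A * g p q) := by
      intro p hp q hq
      have h1 : ((E p ∩ E q).card : ℝ) ≤ (M : ℝ) * (((Ico β (Nat.log 2 p / A)).card : ℝ) *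
          ((Nat.log 2 q / A - β : ℕ) : ℝ) + ((Ico β (Nat.log 2 p / A)).card : ℝ) *
          (Nat.gcd (p - 1) (q - 1) : ℝ)) / (((p - 1 : ℕ) : ℝ) * ((q - 1 : ℕ) : ℝ)) := by
        refine le_trans (Nat.cast_le.2 (Finset.card_le_card ?_)) (hA (p - 1) (q - 1) M β
          (Nat.log 2 q / A) (Ico β (Nat.log 2 p / A)) ?_ ?_ (hdvd p hp) (hdvd q hq) ?_ (hhi q hq))
        · intro n hn
          simp only [hE, mem_inter, mem_filter, mem_range] at hn
          simp only [mem_filter, mem_range, mem_Ico]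
          exact ⟨hn.1.1, hn.1.2, hn.2.2⟩
        · have := p2 p hp; omega
        · have := p2 q hq; omega
        · intro y hy
          rw [mem_Ico] at hy
          exact lt_of_lt_of_le hy.2 (hhi p hp)
      rw [Nat.card_Ico, hcast p hp, hcast q hq] at h1
      have h1' : ((E p ∩ E q).card : ℝ) ≤ (M : ℝ) * ((N p : ℝ) * (N q : ℝ) + (N p : ℝ) *
          (Nat.gcd (p - 1) (q - 1) : ℝ)) / (((p : ℝ) - 1) * ((q : ℝ) - 1)) := h1
      have a1 := hNR p hp
      have a2 := hNR q hq
      have b1 := pR p hp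
      have b2 := pR q hq
      have hlq : ((Nat.log 2 q : ℝ) + 1) ≤ 4 * A * N q := by exact_mod_cast (hNlow q hq).2
      have hl0 : (0 : ℝ) < (Nat.log 2 q : ℝ) + 1 := by positivity
      calc w p * w q * ((E p ∩ E q).card : ℝ) ≤ w p * w q * ((M : ℝ) * ((N p : ℝ) * (N q : ℝ) +
            (N p : ℝ) * (Nat.gcd (p - 1) (q - 1) : ℝ)) / (((p : ℝ) - 1) * ((q : ℝ) - 1))) :=
            mul_le_mul_of_nonneg_left h1' (mul_nonneg (hw0 p hp) (hw0 q hq))
        _ = M * (1 / ((p : ℝ) - 1) * (1 / ((q : ℝ) - 1)) +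
            (1 / N q) * ((Nat.gcd (p - 1) (q - 1) : ℝ) / (((p : ℝ) - 1) * ((q : ℝ) - 1)))) := by
            simp only [hw]
            field_simp
        _ ≤ _ := by
            refine mul_le_mul_of_nonneg_left (add_le_add le_rfl ?_) hMR.le
            have h2 : 1 / (N q : ℝ) ≤ 4 * A / ((Nat.log 2 q : ℝ) + 1) := by
              rw [div_le_div_iff₀ (by linarith) hl0]
              linarith
            have h3 : 0 ≤ (Nat.gcd (p - 1) (q - 1) : ℝ) / (((p : ℝ) - 1) * ((q : ℝ) - 1)) := by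
              have : 0 < ((p : ℝ) - 1) * ((q : ℝ) - 1) := by
                apply mul_pos <;> linarith
              positivity
            refine (mul_le_mul_of_nonneg_right h2 h3).trans (le_of_eq ?_)
            simp only [hg]
            have : (p : ℝ) - 1 ≠ 0 := by linarith
            have : (q : ℝ) - 1 ≠ 0 := by linarith
            field_simp
    have g0 : ∀ p q : ℕ, p.Prime → q.Prime → 0 ≤ g p q := by
      intro p q hp hq
      have h1 : (1 : ℝ) ≤ p := by exact_mod_cast hp.one_le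
      have h2 : (1 : ℝ) ≤ q := by exact_mod_cast hq.one_le
      simp only [hg]
      refine div_nonneg (Nat.cast_nonneg _) (mul_nonneg (mul_nonneg ?_ ?_) (by positivity)) <;>
        linarith
    have bound : ∀ p ∈ P, ∀ q ∈ P, w p * w q * ((E p ∩ E q).card : ℝ) ≤
        M * ((if p = q then 1 / ((p : ℝ) - 1) else 0) + 1 / ((p : ℝ) - 1) * (1 / ((q : ℝ) - 1)) +
          4 * A * (if p < q then g p q else 0) + 4 * A * (if q < p then g q p else 0)) := by
      intro p hp q hq
      rcases lt_trichotomy p q with h | h | h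
      · have := pair p hp q hq
        simp only [h.ne, h, if_true, if_false, h.not_gt]
        linarith
      · subst h
        simp only [if_true, lt_irrefl, if_false, mul_zero, add_zero, Finset.inter_self]
        rw [hEcard p hp]
        have a1 := hNR p hp
        have b1 := pR p hp
        have e1 : w p * w p * (M / ((p : ℝ) - 1) * N p) = M * (1 / ((p : ℝ) - 1) * (1 / N p)) := by
          simp only [hw]
          field_simp
        rw [e1]
        refine mul_le_mul_of_nonneg_left ?_ hMR.le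
        have h2 : 1 / (N p : ℝ) ≤ 1 := by
          rw [div_le_one (by linarith)]
          exact a1
        have h3 : 0 ≤ 1 / ((p : ℝ) - 1) := by
          have : 0 < (p : ℝ) - 1 := by linarith
          positivity
        nlinarith [mul_le_mul_of_nonneg_left h2 h3, mul_nonneg h3 h3]
      · have := pair q hq p hp
        rw [Finset.inter_comm] at this
        simp only [h.ne', h, if_true, if_false, h.not_gt]
        linarith
    have gsum : ∑ q ∈ P, ∑ p ∈ P, (if p < q then g p q else 0) ≤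
        C * (1 + Real.log ((L : ℝ) + 1)) := by
      refine le_trans ?_ (hGcd L)
      refine (Finset.sum_le_sum (g := fun q => ∑ p ∈ (range q).filter Nat.Prime, g p q)
        fun q hq => ?_).trans
        (Finset.sum_le_sum_of_subset_of_nonneg ?_ fun q hq _ => ?_)
      · rw [← Finset.sum_filter]
        refine Finset.sum_le_sum_of_subset_of_nonneg ?_ fun p hp _ => ?_
        · intro p hp
          rw [mem_filter] at hp
          rw [mem_filter, mem_range]
          exact ⟨hp.2, (memP p hp.1).2.1⟩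
        · exact g0 p q (mem_filter.1 hp).2 (memP q hq).2.1
      · intro q hq
        rw [mem_filter, mem_range]
        exact ⟨(memP q hq).1, (memP q hq).2.1⟩
      · exact Finset.sum_nonneg fun p hp => g0 p q (mem_filter.1 hp).2 (mem_filter.1 hq).2
    have total : ∑ p ∈ P, ∑ q ∈ P,
        M * ((if p = q then 1 / ((p : ℝ) - 1) else 0) + 1 / ((p : ℝ) - 1) * (1 / ((q : ℝ) - 1)) +
          4 * A * (if p < q then g p q else 0) + 4 * A * (if q < p then g q p else 0)) =
        M * (μ + μ ^ 2 + 4 * A * ∑ q ∈ P, ∑ p ∈ P, (if p < q then g p q else 0) +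
          4 * A * ∑ q ∈ P, ∑ p ∈ P, (if p < q then g p q else 0)) := by
      simp only [← Finset.mul_sum, Finset.sum_add_distrib]
      congr 1
      have i1 : ∑ p ∈ P, ∑ q ∈ P, (if p = q then 1 / ((p : ℝ) - 1) else 0) = μ := by
        rw [hμ]
        refine Finset.sum_congr rfl fun p hp => ?_
        rw [Finset.sum_ite_eq, if_pos hp]
      have i2 : ∑ p ∈ P, 1 / ((p : ℝ) - 1) * ∑ q ∈ P, 1 / ((q : ℝ) - 1) = μ ^ 2 := by
        rw [← Finset.sum_mul, pow_two]
      have i3 : ∑ p ∈ P, ∑ q ∈ P, (if p < q then g p q else 0) =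
          ∑ q ∈ P, ∑ p ∈ P, (if p < q then g p q else 0) := Finset.sum_comm
      rw [i1, i2, i3]
    refine (Finset.sum_le_sum fun p hp => Finset.sum_le_sum fun q hq => bound p hp q hq).trans ?_
    rw [total]
    refine mul_le_mul_of_nonneg_left ?_ hMR.le
    rw [hV]
    have h8 : 4 * (A : ℝ) * ∑ q ∈ P, ∑ p ∈ P, (if p < q then g p q else 0) ≤
        4 * A * (C * (1 + Real.log ((L : ℝ) + 1))) :=
      mul_le_mul_of_nonneg_left gsum (by positivity)
    linarith
  have hfin := hB M P E w μ V (fun p _ => Finset.filter_subset _ _) hw0 hμ0 hfirst hsecond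
  refine le_trans (Nat.cast_le.2 (Finset.card_le_card ?_)) (hfin.trans ?_)
  · intro n hn
    rw [mem_filter] at hn
    rw [mem_filter]
    refine ⟨hn.1, fun p hp hpE => ?_⟩
    obtain ⟨h1, h2, h3, h4, -⟩ := memP p hp
    apply hn.2 p h2 h3 h4 h1
    simp only [hE, mem_filter] at hpE
    refine ⟨hpE.2.1, ?_⟩
    have h5 := hpE.2.2
    have h6 := (Nat.le_div_iff_mul_le hA1).1 (Nat.succ_le_of_lt h5)
    rw [Nat.mul_comm] at h6
    exact h6
  · rw [div_le_iff₀ (by positivity)]
    calc (M : ℝ) * V ≤ M * (ε * μ ^ 2) := mul_le_mul_of_nonneg_left hVle hMR.le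
      _ = ε * M * μ ^ 2 := by ring

theorem a4 (h : A4a) : Pool.Agent.TH997.US.A4 := t_A4 h t_A4b

end Pool.Agent.Helper82.US
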